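import Pool.Agent.N554.HKS.Def

set_option autoImplicit false

namespace Pool.Agent.N329.HKS

open Pool.Agent.N554.HKS

theorem odd_add_add (n t : ℕ) (h : Odd (n + t + t)) : Odd n := by
  obtain ⟨k, hk⟩ := h
  rcases Nat.even_or_odd n with ⟨l, hl⟩ | h'
  · omega
  · exact h'

theorem pal_aux {A : Type} [DecidableEq A] (a b : A) (hab : a ≠ b) (p : List A)
    (h : List.Palindrome p) : ¬ (Odd (p.count a) ∧ Odd (p.count b)) := by
  induction h with
  | nil => rintro ⟨h1, -⟩; simp at h1
  | singleton x =>
    rintro ⟨h1, h2⟩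
    by_cases hx : x = a
    · subst hx
      rw [List.count_singleton] at h2
      simp [hab] at h2
    · rw [List.count_singleton] at h1
      simp [hx] at h1
  | cons_concat x hl ih =>
    rintro ⟨h1, h2⟩
    apply ih
    rw [List.count_cons, List.count_append, List.count_singleton] at h1 h2
    exact ⟨odd_add_add _ _ h1, odd_add_add _ _ h2⟩

theorem PP_proof : PP := by
  intro A _ p hp a b hab h1 h2
  exact pal_aux a b hab p (List.Palindrome.of_reverse_eq hp) ⟨h1, h2⟩

end Pool.Agent.N329.HKS
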